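import Pool.Agent.P8H48.DC.Two

set_option autoImplicit false

/-!
# Bass's finite generation conjecture and schemes covered by two affine spaces (MP_e17fa799_al, Q1)

Definitions: `eqn`, `Cov`, `UnitDiff` are in `Pool/Agent/P8H48/DC/Stm.lean`; `CovZO`, `CovPoly`, `CovBlock`, `AllZ` in
`Pool/Agent/P8H48/DC/Fin.lean`; `TwoSpaces`, `UnionOf`, `FreeCov`, `EtCov` in `Pool/Agent/P8H48/DC/Two.lean`; `BassP`,
`AllP` in `Pool/Agent/P8H48/FR/Main.lean`; `FFE` in `Pool/Agent/P8H48/FR/Stm.lean`; `tri` (the trilinear form with
the coefficients `T`, as a polynomial) in `Pool/Agent/Y116/UV/Defs.lean`; `KThy` (the known properties of the groups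
`K'_n` which are used), `sp`, `KThy.Fin` (all groups `K'_n(X)` are finitely generated), `KThy.Bass`, `KThy.SmoothDim` in
`Pool/Agent/R904/TR/Defs.lean`; `IsRegularScheme` in `Pool/Agent/R904/CU/Regular.lean`.

Proof. Let `g = ∏_{c ∈ S} (z - c)`, `a ∈ S`, `g = (z - a) h`, and let `X` be the spectrum of `A[t, z] / (g(z) - t f)`.

1. (`opn`) The complement of the closed subscheme `W = V(f, h(z))` of `X` is isomorphic to `Spec A[s]`, by `z = a + s f`,
  `t = s h(a + s f)`: where `f` is invertible `s = (z - a) / f`, and where `h(z)` is invertible `s = t / h(z)`. These open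
  subschemes, `a ∈ S`, cover `X`.
2. (`cls`) On `f = 0` the equation becomes `g(z) = 0`, so that `W` is the disjoint union of the `|S| - 1` schemes
  `z = b`, `b ∈ S`, `b ≠ a`, which are isomorphic to `Spec (A / f)[t]`.
3. By localization (`ksr` for the disjoint union) and homotopy invariance the groups of `A / f` are finitely
  generated if those of `A` and of `X` are. The converse is easier (`conv`).
4. (`reg`, `smo`) `X` is regular if `A` is: where `f` is invertible it is an open subscheme of an affine line over `A`, and
  where `f = 0` the derivative of `g` is invertible.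
5. (`tor`) The open subscheme `T ≠ 0` of the affine space is the product of `T = 1` and the multiplicative group; the
  hypersurfaces `T = 1` generate all schemes of finite type (`bass_iff`, `universal`, `dim_iff` of the starting files).

Authors: helper48 with helper5 (`ksr`, `tor`), helper20 (the covering map), helper21 (`opn`), helper44 (`cls`, `smo`),
helper62 (`conv`, `reg`).
-/

namespace Pool.Agent.Results.MP_e17fa799_al.DoubleCovers

open Pool.Agent.R904.TR Pool.Agent.R904.CU Pool.Agent.P8H48.DC Pool.Agent.P8H48.FR Pool.Agent.Y116.UV

/-- `K.Fin X` means that all groups `K'_n(X)` are finitely generated; `Cov S f` is the ring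
`A[t, z] / (∏_{c ∈ S} (z - c) - t f)`, `t` and `z` are the variables `0` and `1`.

1. Let `R` be a ring of finite type over `ℤ` with `K.Fin (Spec R)`, `S` a finite subset of `R` with at least two elements,
  whose differences are units, and `A` an `R`-algebra of finite type with `K.Fin (Spec A)`. For all `f` in `A`, all groups
  `K'_n` of the closed subscheme `f = 0` of `Spec A` are finitely generated if and only if those of the cover
  `∏_{c ∈ S} (z - c) = t f` of `Spec A[t]` are.
2. Equivalent are: Bass's conjecture; finite generation of all `K'_n(X)` for all schemes `X` of finite type over `ℤ`;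
  the same for the double covers `z ^ 2 - z = t T(x, y, w)` of affine spaces over `ℤ`, for all trilinear
  forms `T` with coefficients `0` and `1`; the same for the double covers `z ^ 2 - z = t f` of affine spaces over `ℤ`, for all
  polynomials `f`; the same for all affine schemes which are smooth over `ℤ` and the union of two open subschemes
  isomorphic to an affine space over `ℤ`.
3. The same is true over `F_p` with the covers `∏_{c ∈ S} (z - c) = t f`, for every subset `S` of `F_p` with at least two
  elements, in particular with the Artin-Schreier covers `z ^ p - z = t f` (`S = F_p`).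
4. For every finite field `k`, every subset `S` of `k` with at least two elements, and every `d`, the groups of all smooth
  separated schemes of dimension at most `d` over `k` are finitely generated if and only if those of the covers
  `∏_{c ∈ S} (z - c) = t T(x, y, w)` are, for all trilinear forms `T` over `k` with a block of at most `d + 2` variables. They
  are finitely generated if `T` has a block of at most three variables.
5. All the covers are smooth over `R` if `A` is, regular if `A` is regular, finite and free of rank `|S|` over
  `A[t]` (if `A` is not trivial), and the union of `|S|` open subschemes isomorphic to `Spec A[s]`.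
6. If `S = R` is a finite field, the equation is `z ^ |R| - z = t f` and the cover is finite, free and etale over `A[t]`. -/
theorem result (K : KThy) :
    (∀ (R : Type) [CommRing R] [Algebra.FiniteType ℤ R] (S : Finset R), K.Fin (sp R) → UnitDiff S →
      1 < S.card → ∀ (A : Type) [CommRing A] [Algebra R A] [Algebra.FiniteType R A] (f : A), K.Fin (sp A) →
      (K.Fin (sp (A ⧸ Ideal.span {f})) ↔ K.Fin (sp (Cov S f)))) ∧
    List.TFAE [K.Bass, AllZ K, CovZO K ℤ {0, 1}, CovPoly K ℤ {0, 1}, TwoSpaces K ℤ] ∧
    (∀ (p : ℕ) [Fact p.Prime] (S : Finset (ZMod p)), 1 < S.card →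
      List.TFAE [BassP K p, AllP K p, CovZO K (ZMod p) S, CovPoly K (ZMod p) S, TwoSpaces K (ZMod p)]) ∧
    (∀ (k : Type) [Field k] [Finite k] (S : Finset k), 1 < S.card →
      (∀ d : ℕ, K.SmoothDim k d ↔ CovBlock K k S (d + 2)) ∧ CovBlock K k S 3) ∧
    (∀ (R A : Type) [CommRing R] [CommRing A] [Algebra R A] (S : Finset R) (f : A), UnitDiff S → S.Nonempty →
      (Algebra.Smooth R A → Algebra.Smooth R (Cov S f)) ∧
      (IsRegularRing A → IsRegularScheme (sp (Cov S f))) ∧
      (Nontrivial A → FreeCov S f) ∧ UnionOf R (Cov S f) (MvPolynomial (Fin 1) A) S) ∧
    ∀ (k A : Type) [Field k] [Fintype k] [CommRing A] [Algebra k A] (f : A), EtCov k f :=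
  all2 K

end Pool.Agent.Results.MP_e17fa799_al.DoubleCovers
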