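import Pool.Agent.P8H48.FR.All

set_option autoImplicit false

/-!
# Bass's finite generation conjecture over `F_p`, Frobenius systems and additive polynomials (MP_e17fa799_al, Q1)

Definitions: `Let`, `ent`, `Let.mat`, `prodW` (words in elementary matrices), `Frob` are in
`Pool/Agent/P8H48/FR/Stm.lean`; `genW` in `Pool/Agent/P8H48/FR/Stm2.lean`; `addPol`, `AddHyp` in
`Pool/Agent/P8H48/FR/Stm4.lean`; `DimFin`, `RegFin`, `WordFin`, `AddFin`, `BassP`, `AllP` in
`Pool/Agent/P8H48/FR/Main.lean`; `KThy` (the known properties of the groups `K'_n` which are used), `sp` and
`KThy.Fin` (all groups `K'_n(X)` are finitely generated) in `Pool/Agent/R904/TR/Defs.lean`.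

Proof. Let `k = F_p`, and let `P(X)` mean that all `K'_n(X)` are finitely generated.

1. (`ked`; elementary proof of a theorem of Kedlaya, with free algebras) Every domain `A` of finite type over `k` of
  dimension at most `d` has a localization `A_w` which is finite, free and etale over a polynomial ring in `e ≤ d`
  variables. By the existence of separating transcendence bases it is enough to consider localizations of
  polynomial rings, and by induction `B[x][1/g]`. Choose `w` monic of degree larger than `deg g` such that `g` and
  `x + w ^ p` are coprime (after a localization of `B`), and put `f = (x + w ^ p) / g ^ p`. Then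
  `B[x][1/g] = B[f][X] / (X + w(X) ^ p - f g(X) ^ p)`, and the derivative of this polynomial is `1`.
2. (`bas`) If `A` is free and etale over `B = k[y_1, ..., y_d]` with the basis `e_i`, then
  `e_i ^ p = ∑ N_ij e_j` with an invertible matrix `N`. (`elc`) `N ⊕ N⁻¹` is a word in the matrices `E_ij(1)`,
  `E_ij(y_l)`. (`frob`, `clo`) The scheme `V_w` is finite and etale over the affine space, so that `Spec A` is an open
  and closed subscheme of it, and `P(V_w)` implies `P(Spec A)` (`ksum`).
3. With noetherian induction this gives `(3) ⇒ (1)`. `(4) ⇒ (1)` is proved in the same way with a primitive element of the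
  function field which is a root of an additive polynomial (`hyp`, `hasm`).
4. (`unc`) For independent variables `V_w` is stratified by products of lines and multiplicative groups: apply
  the letters of `w` one after the other to `v`; where `v_j` is not zero the letter `E_ij(y)` replaces `v_i` by a
  new independent variable.

Authors: helper48 with helper40 (one-variable trick, spreading out, induction), helper44 (etale algebras, commutators),
helper71 (bases, block matrices), helper76 (additive polynomials), helper90 (unconditional part, K-theory, assembly).
-/

namespace Pool.Agent.Results.MP_e17fa799_al.FrobeniusSystems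

open Pool.Agent.R904.TR Pool.Agent.P8H48.FR

/-- Let `p` be a prime.

1. For every `d` the following are equivalent: all groups `K'_m(X)` are finitely generated for all schemes `X` of
  finite type over `F_p` of dimension at most `d`; the same for the regular ones; the same for the schemes
  `v_i ^ p = ∑_j N_ij(y) v_j`, `i = 1, ..., n`, over the affine space with coordinates `y_1, ..., y_d`, for all `n`
  and all products `N` of elementary matrices `E_ij(1)`, `E_ij(y_l)`; the same for the hypersurfaces
  `a_0(y) T + a_1(y) T ^ p + ... + T ^ (p ^ m) = 0` in the affine space of dimension `d + 1`.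
2. Bass's conjecture over `F_p` is equivalent to these statements for all `d`, and to finite generation for all schemes
  of finite type over `F_p`, regular or not.
3. The schemes `v_i ^ p = ∑_j N_ij(y) v_j` are finite and etale over the affine space.
4. Their groups `K'_m` are finitely generated if `N = E_{i_1 j_1}(y_1) ⋯ E_{i_r j_r}(y_r)` with independent variables
  `y_1, ..., y_r`, `r = d`. -/
theorem result (K : KThy) (p : ℕ) [Fact p.Prime] :
    (∀ d : ℕ, List.TFAE [DimFin K p d, RegFin K p d, WordFin K p d, AddFin K p d]) ∧
    List.TFAE [BassP K p, AllP K p, ∀ d : ℕ, WordFin K p d, ∀ d : ℕ, AddFin K p d] ∧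
    (∀ (d n : ℕ) (w : List (Let n d)),
      Algebra.Etale (MvPolynomial (Fin d) (ZMod p)) (Frob p (prodW (ZMod p) w)) ∧
      Module.Finite (MvPolynomial (Fin d) (ZMod p)) (Frob p (prodW (ZMod p) w))) ∧
    ∀ (n r : ℕ) (w : Fin r → Fin n × Fin n) (hw : ∀ k, (w k).1 ≠ (w k).2),
      K.Fin (sp (Frob p (prodW (ZMod p) (genW w hw)))) :=
  ⟨main_dim K p, main_all K p, main_etale p, main_unc K p⟩

end Pool.Agent.Results.MP_e17fa799_al.FrobeniusSystems
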