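import Pool.Agent.P8H64.GH.Kth

set_option autoImplicit false

/-!
# Bass's finite generation conjecture and graph hypersurfaces (MP_e17fa799_al, Q1)

Definitions: `lap` (the reduced weighted Laplacian), `kirchhoff`, `sparseDet`, `ConeSplit` are in
`Pool/Agent/P8H64/GH/Graph.lean`; `GLRing`, `CRing`, `HRing` in `Pool/Agent/P8H64/GH/Main.lean`; `BassOver`,
`SparseFin`, `ComplFin`, `ConeComplFin`, `HypFin`, `ConeHypFin`, `AllFin` in `Pool/Agent/P8H64/GH/Kth.lean`;
`KThy` (the known properties of the groups `K'_n` which are used) in `Pool/Agent/R904/TR/Defs.lean`.

Proof. Let `P` be the property of a scheme `X` of finite type over `R` that all `K'_n(X)` are finitely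
generated. If two of a scheme, a closed subscheme and its complement have `P`, so has the third; `P` is
true for affine spaces, `P(X × 𝔾_m)` implies `P(X)`, and `P` passes in both directions between a quasi-affine
scheme and Jouanolou's affine bundle over it.

1. (`glgood_of_split`, `graphBij`) The complement of the graph hypersurface of a cone over a split graph is
  the space of the invertible symmetric matrices `[[A, X], [Xᵗ, Δ]]`, with `A` arbitrary, `Δ` diagonal, and
  `X` with prescribed zeros. If `P` is true for these, it is true for those with `Δ = 0`, by induction on the
  number of the zeros of `Δ`: where the entry `δ` of `Δ` is a unit, the column of `δ` can be cleared, which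
  changes only `A`. For `Δ = 0` and `X` square the matrix is invertible iff `X` is invertible. So `P` is
  true for the schemes `GL_S` of the invertible matrices with prescribed zeros.
2. (`good_pat`) `P` is true for the invertible matrices with prescribed zeros and with ones at the places
  of a forest, as these are the quotient of the open part where the entries are units by a torus.
3. (`good_vanish`) Let `Q` be a matrix of linear forms as in 2. Bordering `Q` by one row and one column of
  new variables, `P` is true for the locus where `Q` is invertible and a given entry of the adjugate of `Q`
  vanishes, and for several such equations, if they are imposed one after the other, by the bundle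
  `∑ c_t y_t = 1` over the complement of `c = 0`.
4. (`good_vw`, `good_bil`) With 3, `P` is true for the spaces of the pairs `(V, W)` of matrices with
  prescribed zeros and with ones on forests such that `V W` has prescribed zeros, and every system of
  bilinear equations `∑ T_{ijl} x_i y_j = 0` with coefficients zero and one is such a space. These systems
  generate all schemes of finite type over `R` (`clo_universal`).
-/

namespace Pool.Agent.Results.MP_e17fa799_al.GraphHypersurfaces

open Pool.Agent.R904.TR Pool.Agent.P8H64.GH

/-- Let `R` be a regular ring which is a quotient of `ℤ` (for instance `ℤ`, or `ℤ/p`). The following
statements are equivalent.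

1. Bass's conjecture over `R`: `K'_n(X)` is finitely generated for every regular scheme `X` of finite type
  over `R` and every `n`.
2. `K'_n(GL_S)` is finitely generated for every `n` and every finite set `S` of places, where `GL_S` is the
  scheme of the invertible matrices over `R` with zeros outside of `S`.
3. `K'_n` of the complement of the graph hypersurface over `R` is finitely generated for every graph.
4. The same for the cones over split graphs.
5. `K'_n` of the graph hypersurface over `R` is finitely generated for every graph.
6. The same for the cones over split graphs.
7. `K'_n(X)` is finitely generated for every scheme `X` of finite type over `R`. -/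
theorem result (K : KThy) (R : Type) [CommRing R] [IsRegularRing R]
    (hR : Function.Surjective (Int.cast : ℤ → R)) :
    List.TFAE [BassOver K R, SparseFin K R, ComplFin K R, ConeComplFin K R, HypFin K R, ConeHypFin K R,
      AllFin K R] :=
  tfae_surj K R hR

end Pool.Agent.Results.MP_e17fa799_al.GraphHypersurfaces
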