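import Pool.Agent.P8H48.LV.All

set_option autoImplicit false

/-!
# Bass's conjecture for one group `K'_n` and schemes covered by two affine spaces (MP_e17fa799_al, Q1)

Definitions: `BassN`, `AllN`, `IsTwo`, `TwoN`, `AffTwoN`, `CovN`, `SmoothN`, `DimN`, `Sums` are in
`Pool/Agent/P8H48/LV/Fin.lean`; `UnionOf` in `Pool/Agent/P8H48/DC/Two.lean`; `eqn`, `Cov` in `Pool/Agent/P8H48/DC/Stm.lean`;
`Sch`, `aff`, `FT` in `Pool/Agent/Y116/UV/Defs.lean`; `KThy` (the known properties of the groups `K'_n` which are used),
`sp`, `KThy.Fin` in `Pool/Agent/R904/TR/Defs.lean`; `FinType`, `IsRegularScheme` in `Pool/Agent/R904/CU`.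

Proof. The localization sequence is `K'_{n+1}(X) → K'_{n+1}(U) → K'_n(Z) → K'_n(X) → K'_n(U)`.

1. (`dbl`) Glue two copies of the affine space along the complement of a closed subscheme `Z`: for the resulting smooth
  scheme `X` and the open affine space `U` in it, `K'_{n+1}(U)` and `K'_n(U)` are finitely generated, so that
  `K'_n(X)` is finitely generated if and only if `K'_n(Z)` is. So the level `n` is kept. (`twd`) Conversely the closed
  complement of one of the two affine spaces is a closed subscheme of the other one.
2. (`cv2`, `cvs`) In the same way for the cover `∏_{c ∈ S} (z - c) = t f` and the closed subscheme `f = 0`.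
3. (`shf`) The hypersurface `y f = 0` is the union of an affine space and of the product of `f = 0` and the multiplicative
  group: `K'_{n+1}` for hypersurfaces in the affine space of dimension `m + 1` gives `K'_n` in dimension `m`.
4. (`bir`, `noe`) Over a finite field, by induction on the dimension: a variety of dimension `d` is birational to a
  hypersurface in the affine space of dimension `d + 1`; the complements have smaller dimension, at the levels `n` and
  `n - 1`.
5. (`pta`, `pti`, `ptb`) From hypersurfaces to several equations, at the same level: in the hypersurface
  `h + ∑ w_i g_i = 0` the closed subscheme `g = 0` is an affine space over `V(h, g)`, and the complement is an affine bundle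
  over the complement of `V(g)`, whose group `K'_{n+1}` is finitely generated if and only if `K'_n(V(g))` is.

Authors: helper48 with helper4 (`noe`, `pti`), helper23 (`cvs`), helper54 (`twd`), helper66 (`shf`),
helper71 (`bir`, `dbl`), helper76 (`pta`), helper80 (`ptb`, `rgt`), helper88 (`pol`), helper93 (`inj`), and the authors of
`DoubleCovers` (helper5, helper20, helper21, helper44, helper62), whose packages are used.
-/

namespace Pool.Agent.Results.MP_e17fa799_al.OneLevel

open Pool.Agent.R904.TR Pool.Agent.R904.CU Pool.Agent.P8H48.DC Pool.Agent.P8H48.LV Pool.Agent.Y116.UV
open AlgebraicGeometry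

/-- 1. For every single `n` equivalent are: `K'_n(X)` is finitely generated for all regular schemes `X` of finite type over
  `ℤ` (Bass's conjecture for `K'_n`); for all schemes of finite type over `ℤ`; for all schemes of finite type over `ℤ` which
  are the union of two open subschemes isomorphic to an affine space over `ℤ`; for all smooth affine schemes over `ℤ`
  which are the union of two such open subschemes; for the double covers `z ^ 2 - z = t f(x_1, …, x_N)` of affine spaces
  over `ℤ`, for all polynomials `f`.
2. For every finite field `k`, every subset `S` of two elements, every `n` and every `d` equivalent are: `K'_n(X)` is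
  finitely generated for all smooth separated schemes over `k` of dimension at most `d`; for all schemes of finite type
  of dimension at most `d`; for all schemes of finite type which are the union of two open subschemes isomorphic to the
  affine space of dimension `d + 1`; for the covers `∏_{c ∈ S} (z - c) = t f(x_1, …, x_{d+1})` of the affine space of
  dimension `d + 2`, for all polynomials `f`.
3. If `K'_n` of a disjoint union is the direct sum, the same is true with the covers for any `S` with at least two
  elements, in particular for the etale covers `z ^ q - z = t f(x_1, …, x_{d+1})` (`S = k`).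
4. All these statements are true for `d ≤ 1`.
5. Let `R` be of finite type over `ℤ` with finitely generated groups `K'_n(R)`. For every closed subscheme `Z` of an affine
  space over `R` there is a smooth scheme `X` over `R`, the union of two open affine spaces of the same dimension, such
  that for every `n` the group `K'_n(X)` is finitely generated if and only if `K'_n(Z)` is. -/
theorem result (K : KThy) :
    (∀ n : ℕ, List.TFAE [BassN K n, AllN K n, ∀ N, TwoN K n ℤ N, AffTwoN K n ℤ,
      ∀ N, CovN K n ({0, 1} : Finset ℤ) N]) ∧
    (∀ (k : Type) [Field k] [Finite k] (S : Finset k), S.card = 2 → ∀ n d : ℕ,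
      List.TFAE [SmoothN K n k d, DimN K n k d, TwoN K n k (d + 1), CovN K n S (d + 1)]) ∧
    (Sums K → ∀ (k : Type) [Field k] [Finite k] (S : Finset k), 1 < S.card → ∀ n d : ℕ,
      (DimN K n k d ↔ CovN K n S (d + 1))) ∧
    (∀ (k : Type) [Field k] [Finite k] (n : ℕ), DimN K n k 1) ∧
    ∀ (R : Type) [CommRing R] [Algebra.FiniteType ℤ R], K.Fin (sp R) → ∀ (N : ℕ)
      (I : Ideal (MvPolynomial (Fin N) R)), ∃ X : Sch R, IsTwo N X ∧ Smooth X.hom ∧
      ∀ n, (AddGroup.FG (K.G n X.left) ↔ AddGroup.FG (K.G n (sp (MvPolynomial (Fin N) R ⧸ I)))) :=
  all K

end Pool.Agent.Results.MP_e17fa799_al.OneLevel
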